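import Pool.Agent.E8helper1.TBU.Pub
import Pool.Agent.E8helper1.TB.Fin

/-!
# Conversion of the definitions
-/

open CategoryTheory AlgebraicGeometry

universe u

namespace Pool.Agent.E8helper1.TBU

open Pool.Agent.H914 Pool.Agent.H914.VarClass Pool.Agent.H914.VarClass.Obj
  Pool.Agent.H914.WeilCohomology
open Pool.Agent.Y129 (pw)
open Pool.Agent.E8helper1.TP (Gal hdim alg)
open Pool.Agent.E8helper1.TPQ (IsFrobenius HomNum exponent Frobenii)
open Pool.Agent.E8helper1.TPS (StrongTate)

section generic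

variable {R A V : Type} [CommRing R] [Ring A] [AddCommGroup V] [Module R V] {act : A → V → V}

/-- The ring homomorphism given by an action. -/
def IsAct.hom (h : IsAct R act) : A →+* Module.End R V where
  toFun a := { toFun := act a, map_add' := h.map_add a, map_smul' := h.map_smul a }
  map_one' := LinearMap.ext h.one
  map_mul' a b := LinearMap.ext fun x => h.mul a b x
  map_zero' := LinearMap.ext fun x => by
    have h1 := h.add 0 0 x
    rw [add_zero] at h1
    change act 0 x = 0
    simpa using h1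
  map_add' a b := LinearMap.ext fun x => h.add a b x

theorem IsAct.hom_apply (h : IsAct R act) (a : A) (x : V) : h.hom a x = act a x := rfl

end generic

variable {k : Type u} [Field k] {𝒱 : VarClass k} {ops : CycleOps 𝒱}
  {W : WeilCohomology.{u, 0} ops} {X : 𝒱.Obj}

/-- The bundled data. -/
noncomputable def toTB {G : Gal W X} {C : Chow W X} {q : ℕ} {γ : G.Γ} (h : IsTheory G C q γ) :
    TB.Chow W X where
  M := C.M
  grp := C.grp
  mod := C.mod
  A := C.A
  ring := C.ring
  algebra := C.algebra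
  act n c r := (h.act n c r).hom.toRatAlgHom
  real n := (h.real n).hom
  reg n c := AddMonoidHom.mk' (C.reg n c) (h.add n c)
  ext := C.ext
  F := C.F

theorem nilpotence_iff {G : Gal W X} {C : Chow W X} {q : ℕ} {γ : G.Γ} (h : IsTheory G C q γ) :
    (toTB h).Nilpotence ↔ C.Nilpotence := by
  constructor
  · intro h1 n a ha
    exact h1 n a (LinearMap.ext ha)
  · intro h1 n a ha
    exact h1 n a fun x => congrArg (fun f => f x) ha

theorem toTB_isChow {G : Gal W X} {C : Chow W X} {q : ℕ} {γ : G.Γ} (hC : IsChow G C q γ) :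
    TB.IsChow G (toTB hC.theory) q γ where
  range := hC.theory.range
  reg_act := hC.theory.reg_act
  frob := hC.theory.frob
  fix n c r z := hC.theory.fix n c r z
  fix_ext n j x y := hC.ext.fix n j x y
  real_ext n j x y h := hC.ext.real n j x y h
  act_ext n j x y z := hC.ext.act n j x y z
  act_ext_zero n j c r x y z h := hC.ext.zero n j c r x y h z
  kimura m hm h := (nilpotence_iff hC.theory).2 (hC.kimura m hm h)

theorem isFinite_iff {G : Gal W X} {q : ℕ} {γ : G.Γ} (h : IsFinite G q γ) : TB.IsFinite G q γ :=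
  ⟨h.prime_pow, h.gen, h.chi, h.frob⟩

/-- **One power decides the conjectures of Tate, Beilinson and Parshin.** -/
theorem one_power {ℓ : ℕ} [Fact ℓ.Prime] (φ : W.K ≃+* ℚ_[ℓ]) (hX : 0 < hdim W X)
    {G : Gal W X} (hG : Frobenii G φ) {C : Chow W X} {q : ℕ} {γ : G.Γ} (hF : IsFinite G q γ)
    (hC : IsChow G C q γ) {m : ℕ} (hm : IsLarge (hdim W X) X.dim m)
    (hT : HoldsFor G C (2 * m - 1)) : G.Semisimple ∧ ∀ n, TateBeilinson G C n := by
  have hK : (toTB hC.theory).RatHom (2 * m - 1) ∨ (toTB hC.theory).Nilpotence := by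
    rcases hT.2 with h | h
    · exact Or.inl h
    · exact Or.inr ((nilpotence_iff hC.theory).2 h)
  exact TB.one_power φ hX G hG (toTB hC.theory) (isFinite_iff hF) (toTB_isChow hC) _ rfl m hm.1
    hm.2 hT.1 hK

/-- **Lichtenbaum's conjecture for one power implies it for all powers.** -/
theorem one_power_fg {ℓ : ℕ} [Fact ℓ.Prime] (φ : W.K ≃+* ℚ_[ℓ]) (hX : 0 < hdim W X)
    {G : Gal W X} (hG : Frobenii G φ) {C : Chow W X} {q : ℕ} {γ : G.Γ} (hF : IsFinite G q γ)
    (hC : IsChow G C q γ) {E : ℕ → ℕ → ℕ → ℤ → Type} [∀ n s c i, AddCommGroup (E n s c i)]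
    (hE : IsWeilEtale G C E) {m : ℕ} (hm : IsLarge (hdim W X) X.dim m)
    (hT : AllFG (E (2 * m - 1)) ∨ HoldsFor G C (2 * m - 1)) :
    G.Semisimple ∧ ∀ n, TateBeilinson G C n ∧ AllFG (E n) := by
  have hT' : HoldsFor G C (2 * m - 1) := by
    rcases hT with h | h
    · obtain ⟨h3, h4⟩ := hE.of_fg _ h
      exact ⟨Or.inl h3, Or.inl h4⟩
    · exact h
  obtain ⟨h3, h4⟩ := one_power φ hX hG hF hC hm hT'
  exact ⟨h3, fun n => ⟨h4 n, hE.fg n h3 (h4 n)⟩⟩

end Pool.Agent.E8helper1.TBU
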