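import Pool.Agent.E8helper1.TPS.Pub

/-!
# Higher Chow groups, correspondences and Weil-étale motivic cohomology of the powers of a variety over
# a finite field: definitions
-/

open CategoryTheory AlgebraicGeometry

universe u

namespace Pool.Agent.E8helper1.TBU

section generic

/-- The ring `A` acts on the `R`-module `V` by `R`-linear maps. -/
structure IsAct (R : Type) {A V : Type} [Semiring R] [Ring A] [AddCommGroup V] [Module R V]
    (act : A → V → V) : Prop where
  one : ∀ x, act 1 x = x
  mul : ∀ a b x, act (a * b) x = act a (act b x)
  add : ∀ a b x, act (a + b) x = act a x + act b x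
  map_add : ∀ a x y, act a (x + y) = act a x + act a y
  map_smul : ∀ a (t : R) x, act a (t • x) = t • act a x

variable {K H A V : Type} [Field K] [Ring H] [Algebra K H] [Ring A] [Algebra ℚ A] [AddCommGroup V]
  [Module ℚ V]

/-- For every `z` there is an `s ≥ 1` such that `F ^ s` multiplies `z` by `q ^ (s c)`. -/
def IsDefined (act : A → V → V) (F : A) (q c : ℕ) : Prop :=
  ∀ z, ∃ s, 1 ≤ s ∧ act (F ^ s) z = (q : ℚ) ^ (s * c) • z

/-- There is an `s ≥ 1` such that the products of `e` with `F ^ s` on both sides are
`q ^ (s j) e`. -/
def IsEigen (F : A) (q j : ℕ) (e : A) : Prop :=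
  ∃ s, 1 ≤ s ∧ F ^ s * e = (q : ℚ) ^ (s * j) • e ∧ e * F ^ s = (q : ℚ) ^ (s * j) • e

/-- The element `e` acts by `h ↦ tr (y h) x`. -/
def IsProduct (tr : H →ₗ[K] K) (real : A → H → H) (e : A) (x y : H) : Prop :=
  ∀ h, real e h = tr (y * h) • x

/-- The element `e` maps all elements to rational multiples of `x`. -/
def IsMultiple (act : A → V → V) (e : A) (x : V) : Prop := ∀ z, ∃ t : ℚ, act e z = t • x

/-- An element that acts as zero is nilpotent. -/
def NilKernel {A H : Type} [Ring A] [Zero H] (real : A → H → H) : Prop :=
  ∀ a, (∀ h, real a h = 0) → ∃ t : ℕ, a ^ t = 0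

/-- The groups `E s c i`, for `s ≥ 1`, are all finitely generated. -/
def AllFG (E : ℕ → ℕ → ℤ → Type) [∀ s c i, AddCommGroup (E s c i)] : Prop :=
  ∀ s c i, 1 ≤ s → AddGroup.FG (E s c i)

end generic

open Pool.Agent.H914 Pool.Agent.H914.VarClass Pool.Agent.H914.VarClass.Obj
  Pool.Agent.H914.WeilCohomology
open Pool.Agent.Y129 (pw)
open Pool.Agent.E8helper1.TP (Gal hdim alg)
open Pool.Agent.E8helper1.TPQ (IsFrobenius HomNum exponent)
open Pool.Agent.E8helper1.TPS (StrongTate)

variable {k : Type u} [Field k] {𝒱 : VarClass k} {ops : CycleOps 𝒱}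

/-- The data of the higher Chow groups and of the correspondences of the products `pw X n` of `n + 1`
copies of `X`, with rational coefficients. -/
structure Chow (W : WeilCohomology.{u, 0} ops) (X : 𝒱.Obj) where
  /-- `M n c r` is the higher Chow group `CH^c(X^(n+1), r) ⊗ ℚ` -/
  M : ℕ → ℕ → ℕ → Type
  [grp : ∀ n c r, AddCommGroup (M n c r)]
  [mod : ∀ n c r, Module ℚ (M n c r)]
  /-- `A n` is the ring of the correspondences of degree zero `CH^d(X^(n+1) × X^(n+1)) ⊗ ℚ` -/
  A : ℕ → Type
  [ring : ∀ n, Ring (A n)]
  [algebra : ∀ n, Algebra ℚ (A n)]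
  /-- the action of the correspondences on the higher Chow groups -/
  act : ∀ n c r, A n → M n c r → M n c r
  /-- the action of the correspondences on the cohomology -/
  real : ∀ n, A n → W.H (pw X n) → W.H (pw X n)
  /-- the cycle map `CH^c(X^(n+1)) ⊗ ℚ → H^(2 c)(X^(n+1))` -/
  reg : ∀ n c, M n c 0 → W.H (pw X n)
  /-- the exterior product of a cycle of codimension `j` and a cycle of dimension `j` -/
  ext : ∀ n j, M n j 0 → M n ((pw X n).dim - j) 0 → A n
  /-- the correspondence given by the Frobenius endomorphism -/
  F : ∀ n, A n

attribute [instance] Chow.grp Chow.mod Chow.ring Chow.algebra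

variable {W : WeilCohomology.{u, 0} ops} {X : 𝒱.Obj}

/-- Rational and homological equivalence are equal on `pw X n`: the cycle maps are injective. -/
def Chow.RatHom (C : Chow W X) (n : ℕ) : Prop := ∀ c, Function.Injective (C.reg n c)

/-- Homologically trivial correspondences are nilpotent, for all powers of `X`. -/
def Chow.Nilpotence (C : Chow W X) : Prop := ∀ n, NilKernel (C.real n)

/-- The higher Chow groups of `pw X n` are torsion. -/
def Chow.Parshin (C : Chow W X) (n : ℕ) : Prop := ∀ c r, 1 ≤ r → ∀ z : C.M n c r, z = 0

/-- The ground field is the algebraic closure of the field `𝔽_q` over which `X` is defined, and `γ` is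
the Frobenius, which generates the group (the Weil group): for all `s ≥ 1` its power `γ ^ s` has on all
powers of `X` the properties of the geometric Frobenius of `𝔽_(q ^ s)`. -/
structure IsFinite (G : Gal W X) (q : ℕ) (γ : G.Γ) : Prop where
  prime_pow : IsPrimePow q
  gen : ∀ g, g ∈ Subgroup.zpowers γ
  chi : G.χ γ = q
  frob : ∀ s, 1 ≤ s → ∀ n, IsFrobenius (W.gr (pw X n)) (q ^ s) (G.ρ n (γ ^ s))

/-- The correspondences act on the higher Chow groups and on the cohomology, compatibly with the cycle
maps, which are additive and whose images consist of the classes of the algebraic cycles; the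
correspondence `F` acts on the cohomology as the Frobenius `γ`; every element of codimension `c` is
defined over a finite field `𝔽_(q^s)`, so that `F ^ s` acts on it by `q ^ (s c)`. -/
structure IsTheory (G : Gal W X) (C : Chow W X) (q : ℕ) (γ : G.Γ) : Prop where
  act : ∀ n c r, IsAct ℚ (C.act n c r)
  real : ∀ n, IsAct W.K (C.real n)
  add : ∀ n c x y, C.reg n c (x + y) = C.reg n c x + C.reg n c y
  range : ∀ n c, Set.range (C.reg n c) = alg W (pw X n) c
  reg_act : ∀ n c a x, C.reg n c (C.act n c 0 a x) = C.real n a (C.reg n c x)
  frob : ∀ n x, C.real n (C.F n) x = G.ρ n γ x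
  fix : ∀ n c r, IsDefined (C.act n c r) (C.F n) q c

/-- The exterior product `x × y` is defined over a finite field; it acts on the cohomology by
`h ↦ tr (y h) x`; it maps every element of `CH^j ⊗ ℚ` to a rational multiple of `x ∈ CH^j ⊗ ℚ`, and
acts as zero on all other higher Chow groups, as the higher rational `K`-groups of finite fields vanish
(Quillen). -/
structure IsExt (C : Chow W X) (q : ℕ) : Prop where
  fix : ∀ n j x y, IsEigen (C.F n) q j (C.ext n j x y)
  real : ∀ n j x y, IsProduct (W.tr (pw X n)) (C.real n) (C.ext n j x y) (C.reg n j x)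
    (C.reg n _ y)
  act : ∀ n j x y, IsMultiple (C.act n j 0) (C.ext n j x y) x
  zero : ∀ n j c r x y, (c, r) ≠ (j, 0) → ∀ z, C.act n c r (C.ext n j x y) z = 0

/-- The known properties of the higher Chow groups and of the correspondences of the powers of a
variety over the algebraic closure of a finite field: `IsTheory`, `IsExt`, and the theorem of Kimura
(`kimura`): if rational and homological equivalence are equal on one power `X ^ (2 m)`, where `m` is
greater than the dimension of the cohomology of `X`, the homologically trivial correspondences on all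
powers are nilpotent (the motive of `X` is finite-dimensional). -/
structure IsChow (G : Gal W X) (C : Chow W X) (q : ℕ) (γ : G.Γ) : Prop where
  theory : IsTheory G C q γ
  ext : IsExt C q
  kimura : ∀ m, hdim W X < m → C.RatHom (2 * m - 1) → C.Nilpotence

/-- The conjectures of Tate, Beilinson and Parshin for `pw X n`: the Tate classes are linear
combinations of algebraic classes, rational, homological and numerical equivalence are equal for cycles
with rational coefficients (and the tensor product of the group of the cycle classes with the
coefficient field embeds into the cohomology), and the higher Chow groups are torsion. -/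
def TateBeilinson (G : Gal W X) (C : Chow W X) (n : ℕ) : Prop :=
  G.TateConj n ∧ HomNum W (pw X n) ∧ C.RatHom n ∧ C.Parshin n

/-- The theorems of Geisser (and Kahn) on the Weil-étale motivic cohomology groups
`E n s c i = H^i_W(Y_s, ℤ(c))` of the variety `Y = X^(n+1)` over the field `𝔽_(q^s)`. They are
finitely generated for all `s`, `c`, `i` if the conjectures of Tate, Beilinson and Parshin are true for
`Y` and the Galois representation on the cohomology of `X` (and so that on the cohomology of `Y`) is
semisimple; conversely, if they are finitely generated for all `s`, `c`, `i`, then the strong form of the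
Tate conjecture is true for `Y`, and rational and homological equivalence are equal on `Y`. -/
structure IsWeilEtale (G : Gal W X) (C : Chow W X) (E : ℕ → ℕ → ℕ → ℤ → Type)
    [∀ n s c i, AddCommGroup (E n s c i)] : Prop where
  fg : ∀ n, G.Semisimple → TateBeilinson G C n → AllFG (E n)
  of_fg : ∀ n, AllFG (E n) → StrongTate G n ∧ C.RatHom n

/-- The strong form of the Tate conjecture, or the Tate conjecture and semisimplicity, for
`pw X n`; and rational and homological equivalence are equal on `pw X n`, or homologically trivial
correspondences on all powers of `X` are nilpotent. -/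
def HoldsFor (G : Gal W X) (C : Chow W X) (n : ℕ) : Prop :=
  (StrongTate G n ∨ G.Semisimple ∧ G.TateConj n) ∧ (C.RatHom n ∨ C.Nilpotence)

/-- The number `m` is at least `M = 2 b! ((2 d + 1) b!) ^ (b - 1)` and `b³ M² log (2 b M + 1)`. -/
def IsLarge (b d m : ℕ) : Prop :=
  exponent b d ≤ m ∧
    (b : ℝ) ^ 3 * (exponent b d : ℝ) ^ 2 * Real.log (2 * b * exponent b d + 1) ≤ m

end Pool.Agent.E8helper1.TBU
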